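import Pool.Agent.H165S.Defs
import Pool.Agent.H165S.NoDom

/-!
# A dissipative endomorphism with a hyperbolic SRB measure without dominated splitting

The map is `f (x, y) = (-2 x, y + (c x - 1) (8 sin (2 π y) + sin (4 π y)) / (20 π))` on the two-torus,
with `c x = exp (cos (2 π x) - 1/10)`, and `μ` is Lebesgue measure on the invariant circle `y = 0`.
-/

set_option autoImplicit false

open Set Filter Topology MeasureTheory Function
open scoped ContDiff ENNReal

namespace Pool.Agent.Results.MP_a891d2_an.NoDomination

open Pool.Agent.H165S

/-- There is a dissipative smooth endomorphism `f` of the two-torus with an ergodic invariant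
probability measure `μ` which is a non-uniformly hyperbolic SRB measure and such that there is no
dominated splitting over the support of the lift of `μ` to the natural extension. -/
theorem result :
    ∃ (f : Torus → Torus) (F : ℝ × ℝ → ℝ × ℝ) (μ : Measure Torus) (μhat : Measure (NatExt f)),
      IsEndo f F ∧ IsDissipative f ∧
      IsProbabilityMeasure μ ∧ Ergodic f μ ∧ IsLiftOf f μ μhat ∧
      IsHyperbolic F μ ∧ HasACConditionals μhat ∧
      ¬ HasDominatedSplitting f F μhat.support :=
  ⟨ff, FF, mu, muh, endo, diss, inferInstance, mu_ergodic, isLift, hyp, hasAC, noDom⟩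

end Pool.Agent.Results.MP_a891d2_an.NoDomination
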